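import Pool.Agent.Y347.CO.Final4

set_option autoImplicit false

/-!
# Corner-free sets and circuits of constant depth

Corner-free sets decided by circuits of constant depth and size `2 ^ ℓ` have at most
`2 ^ (2 ℓ + 4) 4 ^ n 2 ^ (- n / loss)` elements, and *every* corner-free set has small relative
density in every set `F` decided by such a circuit, also if `F` has only `4 ^ n 2 ^ (- c n / loss)`
elements. Here `loss = d (2 ^ (d + 9) w ℓ) ^ d`.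
-/

namespace Pool.Agent.Results.MP_db4732_co.ConstantDepthCircuits

open Finset Function

/-- `A ⊆ (F_2^n)^2` contains no nontrivial corner `(x, y), (x, y + z), (x + z, y)`, `z ≠ 0`. -/
def CornerFree {n : ℕ} (A : Finset ((Fin n → ZMod 2) × (Fin n → ZMod 2))) : Prop :=
  ∀ x y z : Fin n → ZMod 2, (x, y) ∈ A → (x, y + z) ∈ A → (x + z, y) ∈ A → z = 0

/-- `F` is decided by a circuit of depth at most `d` with at most `2 ^ ℓ` nodes, which reads the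
`2 n` bits of `(x, y)`; its gates are AND and OR gates of any number of wires and arbitrary gates
with at most `w` wires, negations are free. -/
def Decided (w ℓ d : ℕ) {n : ℕ} (F : Finset ((Fin n → ZMod 2) × (Fin n → ZMod 2))) : Prop :=
  ∃ (C : Y603.MS.Circuit w (n + n)) (o : C.Node), C.leak = ∅ ∧ Nat.card C.Node ≤ 2 ^ ℓ ∧
    (∀ v, C.depth v ≤ d) ∧
    ∀ x y, (x, y) ∈ F ↔ C.val o (fun j => decide (Fin.append x y j = 1)) = true

/-- `loss w ℓ d = d (2 ^ (d + 9) w ℓ) ^ d` -/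
def loss (w ℓ d : ℕ) : ℕ := d * (2 ^ (d + 9) * (w * ℓ)) ^ d

/-- **Theorem.** Let `w, ℓ, d ≥ 1`.
(1) If a corner-free set `A ⊆ (F_2^n)^2` is a union of `T` sets decided by circuits of depth `d`
with `2 ^ ℓ` nodes, then `|A| ≤ T 4^n 2^(2 ℓ + 4 - n / loss)`.
(2) Let `1 ≤ m ≤ n` and suppose that corner-free subsets of `(F_2^m)^2` have at most `r` elements.
For every set `F ⊆ (F_2^n)^2` decided by such a circuit, every corner-free `A ⊆ (F_2^n)^2` and every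
`ε > 0`, `|A ∩ F| ≤ (r / 4^m + ε) |F| + (4 m / ε) 4^n 2^(2 ℓ + 4 - (ε / 2) ⌊n / m⌋ / loss)`.
(3) For every `δ > 0` there is `c > 0` such that for all `n`, all such `F` and all corner-free `A`,
`|A ∩ F| ≤ δ |F| + 4^n 2^(2 ℓ + 1 / c - c n / loss)`. -/
theorem result :
    (∀ n w ℓ d T : ℕ, 1 ≤ w → 1 ≤ ℓ → 1 ≤ d →
      ∀ (A : Finset ((Fin n → ZMod 2) × (Fin n → ZMod 2)))
        (F : Fin T → Finset ((Fin n → ZMod 2) × (Fin n → ZMod 2))), CornerFree A →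
        (∀ i, Decided w ℓ d (F i)) → (∀ p, p ∈ A ↔ ∃ i, p ∈ F i) →
        (A.card : ℝ) ≤ T * 4 ^ n * (2 : ℝ) ^ (2 * ℓ + 4 - n / loss w ℓ d : ℝ)) ∧
    (∀ n m w ℓ d r : ℕ, 1 ≤ w → 1 ≤ ℓ → 1 ≤ d → 1 ≤ m → m ≤ n →
      (∀ B : Finset ((Fin m → ZMod 2) × (Fin m → ZMod 2)), CornerFree B → B.card ≤ r) →
      ∀ F A : Finset ((Fin n → ZMod 2) × (Fin n → ZMod 2)), Decided w ℓ d F → CornerFree A →
        ∀ ε : ℝ, 0 < ε → ((A ∩ F).card : ℝ) ≤ (r / 4 ^ m + ε) * F.card +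
          4 * m / ε * (4 ^ n * (2 : ℝ) ^ (2 * ℓ + 4 - ε / 2 * (n / m : ℕ) / loss w ℓ d : ℝ))) ∧
    (∀ δ : ℝ, 0 < δ → ∃ c : ℝ, 0 < c ∧ ∀ n w ℓ d : ℕ, 1 ≤ w → 1 ≤ ℓ → 1 ≤ d →
      ∀ F A : Finset ((Fin n → ZMod 2) × (Fin n → ZMod 2)), Decided w ℓ d F → CornerFree A →
        ((A ∩ F).card : ℝ) ≤ δ * F.card +
          4 ^ n * (2 : ℝ) ^ (2 * ℓ + 1 / c - c * n / loss w ℓ d : ℝ)) := by
  have hloss : ∀ w ℓ d : ℕ, ((loss w ℓ d : ℕ) : ℝ) = (d : ℝ) * Y347.CO.KK d w ℓ := by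
    intro w ℓ d
    rw [loss, Y347.CO.KK, Nat.cast_mul]
  refine ⟨?_, ?_, ?_⟩
  · intro n w ℓ d T hw hℓ hd1 A F hA hF hun
    have h1 : ∀ i, ((F i).card : ℝ) ≤ 4 ^ n * (2 : ℝ) ^ (2 * ℓ + 4 - n / loss w ℓ d : ℝ) := by
      intro i
      obtain ⟨C, o, hleak, hs, hd, hCF⟩ := hF i
      rw [hloss]
      exact Y347.CO.corner_circ_small Y220.CO.done C hleak hℓ hw hd1 hs hd o (F i)
        (fun p => hCF p.1 p.2)
        (Y347.CO.cf_mono (fun p hp => (hun p).2 ⟨i, hp⟩) hA)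
    have h2 : A.card ≤ ∑ i, (F i).card := by
      refine (card_le_card (t := univ.biUnion F) fun p hp => ?_).trans card_biUnion_le
      obtain ⟨i, hi⟩ := (hun p).1 hp
      exact mem_biUnion.2 ⟨i, mem_univ _, hi⟩
    have h3 : (A.card : ℝ) ≤ ∑ i, ((F i).card : ℝ) := by exact_mod_cast h2
    refine h3.trans ((sum_le_sum fun i _ => h1 i).trans (le_of_eq ?_))
    rw [sum_const, card_univ, Fintype.card_fin, nsmul_eq_mul, mul_assoc]
  · intro n m w ℓ d r hw hℓ hd1 hm hmn hr F A hF hA ε hε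
    obtain ⟨C, o, hleak, hs, hd, hCF⟩ := hF
    rw [hloss]
    exact Y347.CO.corner_rel_add C hleak hℓ hw hd1 hs hd o hm hmn F A (fun p => hCF p.1 p.2) hA r
      hr hε
  · intro δ hδ
    obtain ⟨c, hc, h⟩ := Y347.CO.corner_rel_c δ hδ
    refine ⟨c, hc, fun n w ℓ d hw hℓ hd1 F A hF hA => ?_⟩
    obtain ⟨C, o, hleak, hs, hd, hCF⟩ := hF
    rw [hloss]
    exact h n w ℓ d C hleak hℓ hw hd1 hs hd o F A (fun p => hCF p.1 p.2) hA

end Pool.Agent.Results.MP_db4732_co.ConstantDepthCircuits
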