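import Pool.Agent.Y347.CO.Lines

set_option autoImplicit false

/-!
# Corner-free sets with lines decided by polynomials in circuits of constant depth

Corner-free sets all of whose rows (or columns, or diagonals) are decided by circuits of constant
depth with AND and OR gates and one gate on top, which may have exponentially many wires and be a
union, a `MOD p` gate or the support of a polynomial of bounded degree over any field; the circuits
may depend arbitrarily on the line.
-/

namespace Pool.Agent.Results.MP_db4732_co.ConstantDepthLines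

open Finset Function

/-- The group `F_2^n`. -/
abbrev V (n : ℕ) : Type := Fin n → ZMod 2

/-- `A ⊆ (F_2^n)^2` contains no nontrivial corner `(x, y), (x, y + z), (x + z, y)`, `z ≠ 0`. -/
def CornerFree {n : ℕ} (A : Finset (V n × V n)) : Prop :=
  ∀ x y z : V n, (x, y) ∈ A → (x, y + z) ∈ A → (x + z, y) ∈ A → z = 0

/-- `L` is the family of all rows, or of all columns, or of all diagonals of `A`. -/
def IsLines {n : ℕ} (A : Finset (V n × V n)) (L : V n → Set (V n)) : Prop :=
  (∀ s, L s = {y | (s, y) ∈ A}) ∨ (∀ s, L s = {x | (x, s) ∈ A}) ∨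
    (∀ s, L s = {y | (s + y, y) ∈ A})

/-- `S ⊆ F_2^n` is decided by a circuit of depth at most `d` with at most `2 ^ ℓ` nodes, which reads
the `n` bits of `y`; its gates are AND and OR gates of any number of wires and arbitrary gates with
at most `w` wires, negations are free. -/
def Decided (w ℓ d : ℕ) {n : ℕ} (S : Set (V n)) : Prop :=
  ∃ (C : Y603.MS.Circuit w n) (o : C.Node), C.leak = ∅ ∧ Nat.card C.Node ≤ 2 ^ ℓ ∧
    (∀ v, C.depth v ≤ d) ∧ ∀ y, y ∈ S ↔ C.val o (fun i => decide (y i = 1)) = true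

/-- `(4^(q ℓ) + T) 4^(n + 1) 2^(- n / (2 (q d + 1) (2^(d + 9) w ℓ)^d))` -/
noncomputable def bound (n w ℓ d T q : ℕ) : ℝ :=
  (4 ^ (q * ℓ) + T) * 4 ^ (n + 1) *
    (2 : ℝ) ^ (-((n : ℝ) / (2 * (q * d + 1) * (2 ^ (d + 9) * (w * ℓ)) ^ d)))

open Classical in
theorem general (K : Type) [Field K] (n w ℓ d T q : ℕ) (hw : 1 ≤ w) (hℓ : 1 ≤ ℓ)
    (A : Finset (V n × V n)) (hA : CornerFree A) (L : V n → Set (V n)) (hL : IsLines A L)
    (F : V n → Fin T → Set (V n)) (hF : ∀ s i, Decided w ℓ d (F s i))
    (P : V n → MvPolynomial (Fin T) K) (hP : ∀ s, (P s).totalDegree ≤ q)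
    (h : ∀ s y, y ∈ L s ↔ MvPolynomial.eval (fun i => if y ∈ F s i then (1 : K) else 0) (P s) ≠ 0) :
    (A.card : ℝ) ≤ bound n w ℓ d T q := by
  obtain ⟨A', hA', hcard, hL'⟩ := Pool.Agent.W856.Corner.lines_reduce A hA L hL
  choose C o hleak hs hd hC using hF
  have hrow : ∀ x y, (x, y) ∈ A' ↔
      Y347.CO.pv (P x) (fun i => (C x i).val (o x i)) (Y347.CO.bits2 y) ≠ 0 := by
    intro x y
    rw [← hL', h]
    have e : (fun i => if y ∈ F x i then (1 : K) else 0) =
        fun i => if (C x i).val (o x i) (Y347.CO.bits2 y) = true then (1 : K) else 0 := by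
      funext i
      exact if_congr (hC x i y) rfl rfl
    rw [e]
    rfl
  have hle : (A'.card : ℝ) ≤ 4 ^ n := by
    have := card_le_univ A'
    rw [Fintype.card_prod, Fintype.card_pi, prod_const, card_univ, Fintype.card_fin, ZMod.card,
      ← mul_pow] at this
    exact_mod_cast this
  have hN : 1 ≤ (2 ^ (d + 9) * (w * ℓ)) ^ d := by
    have : 0 < w * ℓ := Nat.mul_pos hw hℓ
    exact Nat.one_le_iff_ne_zero.2 (by positivity)
  have key := Y347.CO.lines_num n d T q ℓ _ hN (A'.card : ℝ) hle fun t ht =>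
    Y347.CO.lines_main hℓ hw ht hA' C o hleak hs hd P hP hrow
  rw [hcard] at key
  refine key.trans (le_of_eq ?_)
  unfold bound
  push_cast
  rfl

theorem eval_sum {K : Type} [Field K] {T : ℕ} (a : Fin T → K) (c : Fin T → K) (θ : K) :
    MvPolynomial.eval a (∑ i, MvPolynomial.C (c i) * MvPolynomial.X i - MvPolynomial.C θ) =
      ∑ i, c i * a i - θ := by
  rw [map_sub, map_sum, MvPolynomial.eval_C]
  congr 1
  apply sum_congr rfl
  intro i _
  rw [map_mul, MvPolynomial.eval_C, MvPolynomial.eval_X]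

theorem deg_sum {K : Type} [Field K] {T : ℕ} (c : Fin T → K) (θ : K) :
    (∑ i, MvPolynomial.C (c i) * MvPolynomial.X i - MvPolynomial.C θ :
      MvPolynomial (Fin T) K).totalDegree ≤ 1 := by
  refine (MvPolynomial.totalDegree_sub _ _).trans (max_le ?_ ?_)
  · refine MvPolynomial.totalDegree_finsetSum_le fun i _ => ?_
    refine (MvPolynomial.totalDegree_mul _ _).trans ?_
    rw [MvPolynomial.totalDegree_C, zero_add]
    exact (MvPolynomial.totalDegree_X (R := K) i).le
  · rw [MvPolynomial.totalDegree_C]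
    exact Nat.zero_le _

open Classical in
/-- **Theorem.** Let `w, ℓ ≥ 1`, let `A ⊆ (F_2^n)^2` be corner-free and let `L s` be the rows (or the
columns, or the diagonals) of `A`. For every `s` let `F s 0, …, F s (T - 1)` be sets decided by
circuits of depth `d` with `2 ^ ℓ` nodes.
(1) If for all `s` there is a polynomial `P s` of degree at most `q` over a field `K` such that `L s`
consists of all `y` with `P s ([y ∈ F s 0], …, [y ∈ F s (T - 1)]) ≠ 0`, then
`|A| ≤ (4^(q ℓ) + T) 4^(n + 1) 2^(- n / (2 (q d + 1) (2^(d + 9) w ℓ)^d))`.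
Examples with `q = 1`: (2) `L s` is the union of the `F s i`; (3) `L s` is the set of all `y` for
which the number of `i` with `y ∈ F s i` is not congruent to `r s` modulo a prime `p`; (4) `L s` is
the set of all `y` with `∑_{i : y ∈ F s i} c s i ≠ θ s`, for real numbers `c s i`, `θ s`. -/
theorem result (n w ℓ d T : ℕ) (hw : 1 ≤ w) (hℓ : 1 ≤ ℓ) (A : Finset (V n × V n))
    (hA : CornerFree A) (L : V n → Set (V n)) (hL : IsLines A L) (F : V n → Fin T → Set (V n))
    (hF : ∀ s i, Decided w ℓ d (F s i)) :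
    (∀ (K : Type) [Field K] (q : ℕ) (P : V n → MvPolynomial (Fin T) K),
      (∀ s, (P s).totalDegree ≤ q) →
      (∀ s y, y ∈ L s ↔
        MvPolynomial.eval (fun i => if y ∈ F s i then (1 : K) else 0) (P s) ≠ 0) →
      (A.card : ℝ) ≤ bound n w ℓ d T q) ∧
    ((∀ s, L s = ⋃ i, F s i) → (A.card : ℝ) ≤ bound n w ℓ d T 1) ∧
    (∀ p : ℕ, p.Prime → ∀ r : V n → ℕ,
      (∀ s y, y ∈ L s ↔ ¬ (univ.filter fun i => y ∈ F s i).card ≡ r s [MOD p]) →
      (A.card : ℝ) ≤ bound n w ℓ d T 1) ∧
    (∀ (c : V n → Fin T → ℝ) (θ : V n → ℝ),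
      (∀ s y, y ∈ L s ↔ ∑ i, (if y ∈ F s i then c s i else 0) ≠ θ s) →
      (A.card : ℝ) ≤ bound n w ℓ d T 1) := by
  refine ⟨fun K _ q P hP h => general K n w ℓ d T q hw hℓ A hA L hL F hF P hP h, ?_, ?_, ?_⟩
  · intro h
    refine general ℚ n w ℓ d T 1 hw hℓ A hA L hL F hF
      (fun _ => ∑ i, MvPolynomial.C 1 * MvPolynomial.X i - MvPolynomial.C 0)
      (fun s => deg_sum _ _) fun s y => ?_
    rw [eval_sum, sub_zero, h s, Set.mem_iUnion]
    constructor
    · rintro ⟨i, hi⟩ hsum
      have h1 := (sum_eq_zero_iff_of_nonneg (fun j _ => by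
        rw [one_mul]
        split_ifs <;> norm_num)).1 hsum i (mem_univ _)
      rw [if_pos hi, one_mul] at h1
      exact one_ne_zero h1
    · intro hne
      by_contra hcon
      push Not at hcon
      apply hne
      apply sum_eq_zero
      intro i _
      rw [if_neg (hcon i), mul_zero]
  · intro p hp r h
    haveI : Fact p.Prime := ⟨hp⟩
    refine general (ZMod p) n w ℓ d T 1 hw hℓ A hA L hL F hF
      (fun s => ∑ i, MvPolynomial.C 1 * MvPolynomial.X i - MvPolynomial.C ((r s : ℕ) : ZMod p))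
      (fun s => deg_sum _ _) fun s y => ?_
    rw [eval_sum, h s y, ← ZMod.natCast_eq_natCast_iff, sub_ne_zero, Ne]
    have e : ∑ i, (1 : ZMod p) * (if y ∈ F s i then (1 : ZMod p) else 0) =
        (((univ.filter fun i => y ∈ F s i).card : ℕ) : ZMod p) := by
      rw [card_filter]
      push_cast
      apply sum_congr rfl
      intro i _
      rw [one_mul]
    rw [e]
  · intro c θ h
    refine general ℝ n w ℓ d T 1 hw hℓ A hA L hL F hF
      (fun s => ∑ i, MvPolynomial.C (c s i) * MvPolynomial.X i - MvPolynomial.C (θ s))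
      (fun s => deg_sum _ _) fun s y => ?_
    rw [eval_sum, h s y, sub_ne_zero]
    have e : ∑ i, c s i * (if y ∈ F s i then (1 : ℝ) else 0) =
        ∑ i, (if y ∈ F s i then c s i else 0) := by
      apply sum_congr rfl
      intro i _
      split_ifs
      · rw [mul_one]
      · rw [mul_zero]
    rw [e]

end Pool.Agent.Results.MP_db4732_co.ConstantDepthLines
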