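import Pool.Agent.Y347.CO.CornerThm

set_option autoImplicit false

/-!
# Corner-free sets closed under coordinatewise operations

Every corner-free set `A ⊆ (F_2^n)^2` that is closed under some coordinatewise operation on bits
which depends on at least two of its arguments has at most `(1 + √5)^n = 4 ^ ((1 - 0.152...) n)`
elements.
-/

namespace Pool.Agent.Results.MP_db4732_co.CoordinatewiseOperations

open Finset Function

/-- `A ⊆ H × H` contains no nontrivial corner `(x, y), (x, y + z), (x + z, y)`, `z ≠ 0`. -/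
def CornerFree {H : Type} [AddCommGroup H] (A : Finset (H × H)) : Prop :=
  ∀ x y z : H, (x, y) ∈ A → (x, y + z) ∈ A → (x + z, y) ∈ A → z = 0

/-- `A ⊆ (G^n)^2` is closed under the operation `f : G^k → G`, applied separately in each of the
`2 n` coordinates to `k` elements of `A`. -/
def Closed {G : Type} {n k : ℕ} (A : Finset ((Fin n → G) × (Fin n → G)))
    (f : (Fin k → G) → G) : Prop :=
  ∀ a : Fin k → (Fin n → G) × (Fin n → G), (∀ l, a l ∈ A) →
    ((fun i => f fun l => (a l).1 i, fun i => f fun l => (a l).2 i) :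
      (Fin n → G) × (Fin n → G)) ∈ A

/-- `f` depends on its argument number `j`. -/
def Depends {G : Type} {k : ℕ} (f : (Fin k → G) → G) (j : Fin k) : Prop :=
  ∃ (x : Fin k → G) (b : G), f (update x j b) ≠ f x

/-- `A` is defined by conditions on at most `r` of the `2 n` coordinates: a pair `p` belongs to `A`
as soon as on any `r` coordinates it agrees with some element of `A`. -/
def Local {G : Type} {n : ℕ} (r : ℕ) (A : Finset ((Fin n → G) × (Fin n → G))) : Prop :=
  ∀ p : (Fin n → G) × (Fin n → G), (∀ I J : Finset (Fin n), I.card + J.card ≤ r →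
    ∃ a ∈ A, (∀ i ∈ I, a.1 i = p.1 i) ∧ ∀ j ∈ J, a.2 j = p.2 j) → p ∈ A

/-- `c_q = ((q - 1) + √((q - 1) (q + 3))) / 2`, which is less than `q` for `q ≥ 2` -/
noncomputable def cq (q : ℕ) : ℝ := ((q - 1) + Real.sqrt ((q - 1) * (q + 3))) / 2

theorem isLocal_of {G : Type} [Fintype G] [DecidableEq G] {n r : ℕ}
    {A : Finset ((Fin n → G) × (Fin n → G))} (h : Local r A) :
    Y347.CO.IsLocal r (A.map (Y347.CO.wordEquiv (G := G) n).toEmbedding) := by
  intro w hw
  rw [mem_map_equiv]
  refine h _ fun I J hIJ => ?_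
  obtain ⟨a, ha, haw⟩ := hw (I.disjSum J) (by rw [card_disjSum]; exact hIJ)
  rw [mem_map_equiv] at ha
  refine ⟨_, ha, fun i hi => ?_, fun j hj => ?_⟩
  · exact haw (Sum.inl i) (by simpa using hi)
  · exact haw (Sum.inr j) (by simpa using hj)

/-- **Theorem.**
(1) Let `f : F_2^k → F_2` be any operation that depends on at least two of its arguments. Every
corner-free `A ⊆ (F_2^n)^2` closed under `f` (applied coordinatewise) has at most `(1 + √5)^n`
elements.
(2) If `A` is closed under the majority `uv + uw + vw` or under `u + v + w`, then `|A|² ≤ 8^n`.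
(3) This is sharp: for every `m` some corner-free `A ⊆ (F_2^{2m})^2` with `8^m` elements is closed
under all coordinatewise operations.
(4) Corner-free sets defined by conditions on at most `r` coordinates, in particular corner-free
sets closed under a near unanimity operation of arity `r + 1`, have at most `4 ^ ((1 - 1/(2r)) n)`
elements.
(5) Let `G` be any nontrivial finite abelian group (for instance `F_2^d`: blocks of `d`
coordinates), `q = |G|²`, and let `s i` be arbitrary semilattice operations on the set `G × G` of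
the `q` pairs of letters, possibly different for each position `i`. Corner-free sets in `(G^n)^2`
closed under them have at most `c_q ^ n` elements, `c_q < q`.
(6) The same for arbitrary near unanimity operations of arity `r + 1` on the set `G × G`, with the
bound `(q - (q - ρ) / r) ^ n` if corner-free subsets of `G × G` have at most `ρ ≤ q` elements. -/
theorem result :
    (∀ (k : ℕ) (f : (Fin k → ZMod 2) → ZMod 2) (j j' : Fin k), j ≠ j' → Depends f j →
      Depends f j' → ∀ (n : ℕ) (A : Finset ((Fin n → ZMod 2) × (Fin n → ZMod 2))),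
        CornerFree A → Closed A f → (A.card : ℝ) ≤ (1 + Real.sqrt 5) ^ n) ∧
    (∀ (n : ℕ) (A : Finset ((Fin n → ZMod 2) × (Fin n → ZMod 2))), CornerFree A →
      (Closed A (fun v : Fin 3 → ZMod 2 => v 0 * v 1 + v 0 * v 2 + v 1 * v 2) ∨
        Closed A (fun v : Fin 3 → ZMod 2 => v 0 + v 1 + v 2)) → A.card ^ 2 ≤ 8 ^ n) ∧
    (∀ m : ℕ, ∃ A : Finset ((Fin (2 * m) → ZMod 2) × (Fin (2 * m) → ZMod 2)), CornerFree A ∧
      (∀ (k : ℕ) (f : (Fin k → ZMod 2) → ZMod 2), Closed A f) ∧ A.card = 8 ^ m) ∧
    (∀ (n r : ℕ) (A : Finset ((Fin n → ZMod 2) × (Fin n → ZMod 2))), 1 ≤ r → CornerFree A →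
      (Local r A ∨ ∃ f : (Fin (r + 1) → ZMod 2) → ZMod 2,
        (∀ (l : Fin (r + 1)) (x y : ZMod 2), f (update (fun _ => x) l y) = x) ∧ Closed A f) →
      (A.card : ℝ) ≤ (4 : ℝ) ^ ((1 - 1 / (2 * r) : ℝ) * n)) ∧
    (∀ (G : Type) [AddCommGroup G] [Fintype G] [DecidableEq G] [Nontrivial G] (n : ℕ)
      (A : Finset ((Fin n → G) × (Fin n → G))) (s : Fin n → G × G → G × G → G × G),
      CornerFree A → (∀ i, (∀ x y, s i x y = s i y x) ∧
        (∀ x y z, s i (s i x y) z = s i x (s i y z)) ∧ ∀ x, s i x x = x) →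
      (∀ a ∈ A, ∀ b ∈ A, ((fun i => (s i (a.1 i, a.2 i) (b.1 i, b.2 i)).1,
        fun i => (s i (a.1 i, a.2 i) (b.1 i, b.2 i)).2) : (Fin n → G) × (Fin n → G)) ∈ A) →
      (A.card : ℝ) ≤ cq (Fintype.card G ^ 2) ^ n ∧
        cq (Fintype.card G ^ 2) < ((Fintype.card G ^ 2 : ℕ) : ℝ)) ∧
    (∀ (G : Type) [AddCommGroup G] [Fintype G] [DecidableEq G] (n r ρ : ℕ)
      (A : Finset ((Fin n → G) × (Fin n → G))) (f : Fin n → (Fin (r + 1) → G × G) → G × G),
      1 ≤ r → (∀ S : Finset (G × G), CornerFree S → S.card ≤ ρ) → ρ ≤ Fintype.card G ^ 2 →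
      CornerFree A → (∀ i l x y, f i (update (fun _ => x) l y) = x) →
      (∀ a : Fin (r + 1) → (Fin n → G) × (Fin n → G), (∀ l, a l ∈ A) →
        ((fun i => (f i fun l => ((a l).1 i, (a l).2 i)).1,
          fun i => (f i fun l => ((a l).1 i, (a l).2 i)).2) : (Fin n → G) × (Fin n → G)) ∈ A) →
      (A.card : ℝ) ≤
        ((Fintype.card G : ℝ) ^ 2 - ((Fintype.card G : ℝ) ^ 2 - ρ) / r) ^ n) := by
  refine ⟨?_, ?_, ?_, ?_, ?_, ?_⟩
  · intro k f j j' hjj hj hj' n A hc hcl
    exact Y347.CO.corner_op f hjj hj hj' A hc hcl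
  · rintro n A hc (h | h)
    · exact Y347.CO.corner_maj A hc h
    · refine Y48.CO.AffC.done n A hc ?_
      intro a ha b hb c hcc
      have := h ![a, b, c] (by
        intro l
        fin_cases l
        · exact ha
        · exact hb
        · exact hcc)
      exact this
  · intro m
    obtain ⟨A, h1, h2, h3⟩ := Y48.CO.Sharp.done m
    exact ⟨A, h1, h2, h3⟩
  · intro n r A hr hc h
    have hloc : Y347.CO.IsLocal r (A.map (Y347.CO.wordEquiv (G := ZMod 2) n).toEmbedding) := by
      rcases h with h | ⟨f, hf, hcl⟩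
      · exact isLocal_of h
      · exact Y347.CO.local_of_nu A f hf hcl
    refine (Y347.CO.corner_local hr A hc hloc).trans (le_of_eq ?_)
    have hr0 : (0 : ℝ) < r := by exact_mod_cast hr
    rw [show (4 : ℝ) = (2 : ℝ) ^ (2 : ℝ) by norm_num, ← Real.rpow_mul (by norm_num)]
    congr 1
    field_simp
  · intro G _ _ _ _ n A s hc hs h
    refine ⟨Y347.CO.corner_semi_letters A hc s (fun i => ⟨(hs i).1, (hs i).2.1, (hs i).2.2⟩) h, ?_⟩
    apply Y347.CO.cq_lt
    have hG : 1 < Fintype.card G := Fintype.one_lt_card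
    nlinarith
  · intro G _ _ _ n r ρ A f hr hρ hρ' hc hf h
    exact Y347.CO.corner_nu_letters hr hρ hρ' A hc f hf h

end Pool.Agent.Results.MP_db4732_co.CoordinatewiseOperations
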