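import Mathlib
import Pool.Agent.Y607.LP.Rows

/-!
# Corner-free sets in `(F_2^n)^2` all of whose lines are decided by small formulas

Let `A ⊆ (F_2^n)^2` be corner-free and assume that each of its rows (or each column, or each
diagonal) is a union of `T` subsets of `F_2^n` which are decided by De Morgan formulas with at most
`S` leaves; the formulas may depend on the row in an arbitrary way. We show that
`|A| ≤ 2 T 4^n exp (- c n² / (S + n))` with an absolute constant `c > 0`. So there is a power-saving
bound for the corner-free sets whose lines have formulas of linear size, and the bound is nontrivial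
for all sizes up to `c' n²`.

Proof. Let one coordinate of every block of `m` coordinates be free, and let `H ≅ F_2^ℓ` be the
subspace of the free coordinates. By the approximation of formulas by polynomials, for `S ≤ c t m²`
a row restricted to a random coset of `H` is a polynomial of degree at most `t` in the `ℓ` free
coordinates, except with probability `4^(-t)`. In each product of two cosets of `H` the matrix of
these restricted rows is supported in a corner-free set and has rank at most `∑_{i ≤ t} C(ℓ, i)`, so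
that it has at most `2^ℓ ∑_{i ≤ t} C(ℓ, i)` nonzero entries.
-/

set_option autoImplicit false

namespace Pool.Agent.Results.MP_db4732_co.FormulaLines

/-- Formulas over the variables `y 0, …, y (n - 1)`. -/
inductive Formula (n : ℕ) : Type
  | var : Fin n → Formula n
  | not : Formula n → Formula n
  | and : Formula n → Formula n → Formula n
  | or : Formula n → Formula n → Formula n

/-- the number of leaves -/
def Formula.leaves {n : ℕ} : Formula n → ℕ
  | .var _ => 1
  | .not f => f.leaves
  | .and f g => f.leaves + g.leaves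
  | .or f g => f.leaves + g.leaves

/-- the formula accepts `y` -/
def Formula.Accepts {n : ℕ} : Formula n → (Fin n → ZMod 2) → Prop
  | .var i, y => y i = 1
  | .not f, y => ¬ f.Accepts y
  | .and f g, y => f.Accepts y ∧ g.Accepts y
  | .or f g, y => f.Accepts y ∨ g.Accepts y

/-- `B` is the union of `T` sets, each of which is decided by a formula with at most `S` leaves. -/
def UnionOf {n : ℕ} (T S : ℕ) (B : Set (Fin n → ZMod 2)) : Prop :=
  ∃ F : Fin T → Formula n, (∀ j, (F j).leaves ≤ S) ∧ ∀ y, y ∈ B ↔ ∃ j, (F j).Accepts y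

/-- `A` contains no nontrivial corner `(x, y), (x, y + z), (x + z, y)`. -/
def CornerFree {n : ℕ} (A : Finset ((Fin n → ZMod 2) × (Fin n → ZMod 2))) : Prop :=
  ∀ x y z : Fin n → ZMod 2, (x, y) ∈ A → (x, y + z) ∈ A → (x + z, y) ∈ A → z = 0

/-- All rows `{y : (s, y) ∈ A}`, or all columns `{x : (x, s) ∈ A}`, or all diagonals
`{y : (s + y, y) ∈ A}` have the property `P`. -/
def AllLines {n : ℕ} (A : Finset ((Fin n → ZMod 2) × (Fin n → ZMod 2)))
    (P : Set (Fin n → ZMod 2) → Prop) : Prop :=
  (∀ s, P {y | (s, y) ∈ A}) ∨ (∀ s, P {x | (x, s) ∈ A}) ∨ (∀ s, P {y | (s + y, y) ∈ A})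

open Pool.Agent.H564R2.QF Pool.Agent.Y607.LP

/-- the same formula for the library -/
def Formula.conv {n : ℕ} : Formula n → Fml (Fin n)
  | .var i => .var i
  | .not f => .neg f.conv
  | .and f g => .and f.conv g.conv
  | .or f g => .or f.conv g.conv

lemma conv_size {n : ℕ} (f : Formula n) : f.conv.size = f.leaves := by
  induction f with
  | var i => rfl
  | not f ih => exact ih
  | and f g ih ih' => simp only [Formula.conv, Fml.size, Formula.leaves, ih, ih']
  | or f g ih ih' => simp only [Formula.conv, Fml.size, Formula.leaves, ih, ih']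

lemma conv_acc {n : ℕ} (f : Formula n) (y : Fin n → ZMod 2) :
    f.conv.eval (bits y) = true ↔ f.Accepts y := by
  induction f with
  | var i => simp [Formula.conv, Fml.eval, Formula.Accepts, bits, tb]
  | not f ih => simp [Formula.conv, Fml.eval, Formula.Accepts, ← ih]
  | and f g ih ih' => simp [Formula.conv, Fml.eval, Formula.Accepts, ← ih, ← ih']
  | or f g ih ih' => simp [Formula.conv, Fml.eval, Formula.Accepts, ← ih, ← ih']

lemma conv_union {n T S : ℕ} {B : Set (Fin n → ZMod 2)} (h : UnionOf T S B) :
    ∃ φ : Fin T → Fml (Fin n), (∀ j, (φ j).size ≤ S) ∧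
      ∀ y, y ∈ B ↔ ∃ j, (φ j).eval (bits y) = true := by
  obtain ⟨F, hF, hB⟩ := h
  exact ⟨fun j => (F j).conv, fun j => by rw [conv_size]; exact hF j,
    fun y => by rw [hB]; simp only [conv_acc]⟩

/-- There is an absolute constant `c > 0` with the following properties.
(1) If `A ⊆ (F_2^n)^2` is corner-free and each row (or each column, or each diagonal) of `A` is a
union of `T` sets decided by formulas with at most `S` leaves, then
`|A| ≤ 2 T 4^n exp (- c n² / (S + n))`.
(2) So for every `K` there is `δ > 0` such that `|A| ≤ 2 * 4 ^ ((1 - δ) n)` for every corner-free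
`A ⊆ (F_2^n)^2` each row (or each column, or each diagonal) of which is a union of at most
`exp (δ n)` sets decided by formulas with at most `K n` leaves. -/
theorem result : ∃ c : ℝ, 0 < c ∧
    (∀ (n S T : ℕ) (A : Finset ((Fin n → ZMod 2) × (Fin n → ZMod 2))), CornerFree A →
      AllLines A (UnionOf T S) →
        (A.card : ℝ) ≤ 2 * T * 4 ^ n * Real.exp (-(c * n ^ 2 / (S + n)))) ∧
    (∀ K : ℕ, ∃ δ : ℝ, 0 < δ ∧
      ∀ (n T : ℕ) (A : Finset ((Fin n → ZMod 2) × (Fin n → ZMod 2))), CornerFree A →
        (T : ℝ) ≤ Real.exp (δ * n) → AllLines A (UnionOf T (K * n)) →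
          (A.card : ℝ) ≤ 2 * (4 : ℝ) ^ ((1 - δ) * (n : ℝ))) := by
  have h1 : ∀ (n S T : ℕ) (A : Finset ((Fin n → ZMod 2) × (Fin n → ZMod 2))), CornerFree A →
      AllLines A (UnionOf T S) →
        (A.card : ℝ) ≤ 2 * T * 4 ^ n * Real.exp (-(cst2 * n ^ 2 / (S + n))) := by
    intro n S T A hA h
    have h2 : (A.card : ℝ) ≤ T * (2 * 4 ^ n * Real.exp (-(cst2 * n ^ 2 / (S + n)))) := by
      rcases h with h | h | h
      · exact corners n S T A hA (fun s => {y | (s, y) ∈ A}) (Or.inl fun _ => rfl)
          (fun s => conv_union (h s))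
      · exact corners n S T A hA (fun s => {x | (x, s) ∈ A}) (Or.inr (Or.inl fun _ => rfl))
          (fun s => conv_union (h s))
      · exact corners n S T A hA (fun s => {y | (s + y, y) ∈ A}) (Or.inr (Or.inr fun _ => rfl))
          (fun s => conv_union (h s))
    refine h2.trans (le_of_eq ?_)
    ring
  refine ⟨cst2, cst2_pos, h1, ?_⟩
  intro K
  have hK : (0 : ℝ) ≤ K := by positivity
  have hc := cst2_pos
  set δ : ℝ := cst2 / (3 * (K + 1)) with hδ
  have hδ0 : 0 < δ := by rw [hδ]; positivity
  refine ⟨δ, hδ0, fun n T A hA hT h => ?_⟩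
  refine (h1 n (K * n) T A hA h).trans ?_
  have h2 : Real.exp (-(cst2 * (n : ℝ) ^ 2 / (((K * n : ℕ) : ℝ) + n))) =
      Real.exp (-(3 * δ * n)) := by
    congr 1
    rw [hδ]
    rcases Nat.eq_zero_or_pos n with hn | hn
    · subst hn; simp
    · have hnr : (0 : ℝ) < n := by exact_mod_cast hn
      push_cast
      field_simp
  rw [h2]
  have h3 : Real.exp (-(2 * δ * n)) ≤ (4 : ℝ) ^ (-(δ * n)) := by
    rw [Real.rpow_def_of_pos (by norm_num)]
    apply Real.exp_le_exp.2
    have h4 : Real.log 4 ≤ 2 := by
      have h5 : Real.log 4 = 2 * Real.log 2 := by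
        rw [show (4 : ℝ) = 2 ^ 2 by norm_num, Real.log_pow]; norm_num
      have := Real.log_two_lt_d9
      rw [h5]; linarith
    have h6 : 0 ≤ δ * n := by positivity
    nlinarith
  calc 2 * (T : ℝ) * 4 ^ n * Real.exp (-(3 * δ * n))
      ≤ 2 * Real.exp (δ * n) * 4 ^ n * Real.exp (-(3 * δ * n)) := by gcongr
    _ = 2 * 4 ^ n * (Real.exp (δ * n) * Real.exp (-(3 * δ * n))) := by ring
    _ = 2 * 4 ^ n * Real.exp (-(2 * δ * n)) := by
        rw [← Real.exp_add]
        congr 2
        ring
    _ ≤ 2 * 4 ^ n * (4 : ℝ) ^ (-(δ * n)) := mul_le_mul_of_nonneg_left h3 (by positivity)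
    _ = 2 * (4 : ℝ) ^ ((1 - δ) * (n : ℝ)) := by
        rw [← Real.rpow_natCast (4 : ℝ) n, mul_assoc, ← Real.rpow_add (by norm_num)]
        congr 2
        ring

end Pool.Agent.Results.MP_db4732_co.FormulaLines
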